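import Mathlib
import Pool.Agent.Lib.MP_045218_nt.Defs
import Pool.Agent.Lib.MP_045218_nt.Main

set_option autoImplicit false

open Polynomial Pool.Agent.Lib.MP_045218_nt

namespace Pool.Agent.Results.MP_045218_nt.EquivalenceFails

/-- For every global function field `K` (a finite extension of `Fq(t)`, `Fq` a finite field) with
ring of integers `O_K` (the integral closure of `Fq[t]` in `K`), and for every `k ≥ 2`, there are
`k` distinct nonconstant polynomials over `O_K` which have a common root modulo every nonzero
ideal (condition (i)) but for which some set of positive upper Banach density contains no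
configuration `{x, x + P 1 (n), …, x + P k (n)}` (so condition (ii) fails). -/
theorem result (Fq K : Type*) [Field Fq] [Finite Fq] [Field K] [Algebra Fq[X] K]
    [Algebra (RatFunc Fq) K] [IsScalarTower Fq[X] (RatFunc Fq) K] [FunctionField Fq K]
    (k : ℕ) (hk : 2 ≤ k) :
    ∃ P : Fin k → (FunctionField.ringOfIntegers Fq K)[X],
      Function.Injective P ∧ (∀ i, 0 < (P i).natDegree) ∧
        JointlyIntersective P ∧ ¬ PolySzemeredi P :=
  counterexample Fq K k (by omega)

end Pool.Agent.Results.MP_045218_nt.EquivalenceFails
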